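import Mathlib
import Pool.Agent.X255.RH.Main
import Pool.Agent.Y776.Cv.Fix
import Pool.Agent.H46AR.Base

/-!
# Arbitrary analytic curves in the Lie algebra of a semi-abelian variety at all roots of almost all integral polynomials

Let `G` be the product of a torus `𝔾_m^s` and of elliptic curves `E_1, …, E_n`, and let
`r(x) = (l_1(x), …, l_s(x), u_1(x), …, u_n(x))` be ANY analytic curve in the Lie algebra of `G`, over a connected open
set `V` of the plane, which is not contained in a translate of the Lie algebra of an algebraic subgroup. We consider the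
components of `r(x)` and of `exp_G(r(x))`, that is the numbers `l_k(x)`, `exp(l_k(x))`, `u_i(x)`, `℘(u_i(x))`, together
with `ζ(u_i(x))`, at all the roots `x` of an integral polynomial of degree `g`; so `x` runs through algebraic numbers of
degree `g` with all their conjugates, and we look at a point of the `g`-th power of `Lie G`. The conjecture, applied to
`G ^ g`, says that the transcendence degree of the components is at least the dimension, `g (s + n)`, over the periods.

We prove: one can fix `s + 2 n` of the `2 s + 3 n` functions (at least `s + n` of them are components of `r` or of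
`exp_G(r)`), such that for almost all polynomials with coefficients at most `T` their values at all roots together
satisfy no algebraic relation over number fields whose degree and whose field degree is at most `ω(T)` and whose height
is at most `T ^ ω(T)`, where `ω(T) → ∞`; the coefficients of the relations may contain arbitrary given complex numbers
`ξ_0, ξ_1, …`, for instance the monomials in the periods of `G`. The roots are those in `V` if the complement of `V` is
locally finite, or contained in the real line, and so on, and in general the roots in sets `K_1, K_2, …` which can be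
increasing compact sets with the union `V`. If all `l_k`, `u_i` are entire functions, only the roots with some `u_i(x)`
in the lattice are omitted. There is a power saving for the polynomials whose roots are in a compact position.

The starting file `AllRootsOfPolynomials` has the case in which `l_k` and `u_i` are polynomials.

The proof is an application of `Pool.Agent.X255.RH.main_all`, `main_eps` (values of algebraically independent functions
at the roots of almost all polynomials) and of `Pool.Agent.Y776.Cv.fix_sub` (Ax's theorem for curves).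
-/

set_option autoImplicit false

open Polynomial Filter Topology NumberField
open scoped PeriodPair

namespace Pool.Agent.Results.MP_4aec10_nt.AnalyticCurvesAtAllRoots

/-- The integral vectors `a = (a_0, …, a_g)` with `|a_i| ≤ T`. -/
noncomputable def box (g T : ℕ) : Finset (Fin (g + 1) → ℤ) := Fintype.piFinset fun _ => Finset.Icc (-(T : ℤ)) (T : ℤ)

/-- The polynomial `a_0 + a_1 x + … + a_g x^g`. -/
noncomputable def poly {g : ℕ} (a : Fin (g + 1) → ℤ) : ℂ[X] := ∑ i, C (a i : ℂ) * X ^ (i : ℕ)

/-- The Weierstrass `ζ`-function of the lattice `L` (the term of `l = 0` is `1 / z`). -/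
noncomputable def zeta (L : PeriodPair) (z : ℂ) : ℂ := ∑' l : L.lattice, (1 / (z - l) + 1 / l + z / l ^ 2)

/-- There is no homomorphism except `0` from the elliptic curve `ℂ / L` to `ℂ / L'`. -/
def NoHom (L L' : PeriodPair) : Prop := ∀ α : ℂ, (∀ w ∈ L.lattice, α * w ∈ L'.lattice) → α = 0

/-- The curve `(l, u)` over `V` in the Lie algebra of the product of `𝔾_m^s` and of the elliptic curves with the lattices
`Λ_(ty i)` is not in a translate of the Lie algebra of an algebraic subgroup: no nontrivial integral combination of the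
`l_k` is constant, and for each type `c` no nontrivial combination of the `u_i` of this type is constant, whose
coefficients multiply the lattice `Λ_c` into itself. -/
structure NotInTranslate {s n q : ℕ} (V : Set ℂ) (Λ : Fin q → PeriodPair) (ty : Fin n → Fin q) (l : Fin s → ℂ → ℂ)
    (u : Fin n → ℂ → ℂ) : Prop where
  torus : ∀ (m : Fin s → ℤ) (b : ℂ), (∀ z ∈ V, ∑ k, (m k : ℂ) * l k z = b) → m = 0
  elliptic : ∀ (c : Fin q) (a : Fin n → ℂ) (b : ℂ), (∀ i, ∀ w ∈ (Λ c).lattice, a i * w ∈ (Λ c).lattice) →
    (∀ i, ty i ≠ c → a i = 0) → (∀ z ∈ V, ∑ i, a i * u i z = b) → a = 0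

/-- An analytic curve over the connected open set `V`, without points at which some `u_i` is in its lattice. -/
structure Curve {s n q : ℕ} (V : Set ℂ) (Λ : Fin q → PeriodPair) (ty : Fin n → Fin q) (l : Fin s → ℂ → ℂ)
    (u : Fin n → ℂ → ℂ) : Prop where
  isOpen : IsOpen V
  isPreconnected : IsPreconnected V
  nonempty : V.Nonempty
  an_l : ∀ k, AnalyticOnNhd ℂ (l k) V
  an_u : ∀ i, AnalyticOnNhd ℂ (u i) V
  notMem : ∀ i, ∀ z ∈ V, u i z ∉ (Λ (ty i)).lattice
  free : NotInTranslate V Λ ty l u

/-- The names of the functions. -/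
inductive Name (s n : ℕ) : Type
  | l : Fin s → Name s n
  | expl : Fin s → Name s n
  | u : Fin n → Name s n
  | zetau : Fin n → Name s n
  | wpu : Fin n → Name s n

/-- The values of the functions `l_k`, `exp(l_k)`, `u_i`, `ζ(u_i)`, `℘(u_i)` at `z`. -/
noncomputable def value {s n q : ℕ} (Λ : Fin q → PeriodPair) (ty : Fin n → Fin q) (l : Fin s → ℂ → ℂ)
    (u : Fin n → ℂ → ℂ) : Name s n → ℂ → ℂ
  | Name.l k, z => l k z
  | Name.expl k, z => Complex.exp (l k z)
  | Name.u i, z => u i z
  | Name.zetau i, z => zeta (Λ (ty i)) (u i z)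
  | Name.wpu i, z => ℘[Λ (ty i)] (u i z)

/-- The numbers `x q` satisfy no relation of degree at most `k` in each of them with coefficients `∑_{b < k} ξ_b c_b`,
where the `c_b` are integers of a number field of degree at most `k` all of whose conjugates are at most `T ^ k`, except
the relations all of whose coefficients vanish. -/
def NoRelation {Q : Type} [Fintype Q] [DecidableEq Q] (ξ : ℕ → ℂ) (k : ℕ) (T : ℝ) (x : Q → ℂ) : Prop :=
  ∀ (F : Type) [Field F] [NumberField F], Module.finrank ℚ F ≤ k → ∀ (io : F →+* ℂ)
    (c : (Q → Fin (k + 1)) → Fin k → 𝓞 F), (∀ l b (φ : F →+* ℂ), ‖φ (c l b : F)‖ ≤ T ^ k) →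
    ∑ l, (∑ b : Fin k, ξ b * io (c l b : F)) * ∏ q, x q ^ (l q : ℕ) = 0 → ∀ l, ∑ b : Fin k, ξ b * io (c l b : F) = 0

/-- The roots in `K` of the polynomial with the coefficients `a`. -/
noncomputable def roots {g : ℕ} (K : Set ℂ) (a : Fin (g + 1) → ℤ) : Finset ℂ := by
  classical exact (poly a).roots.toFinset.filter fun z => z ∈ K

/-- There is no relation between the values of the functions `f` at all the roots in `K` of the polynomial with the
coefficients `a` together. -/
def Free {g d : ℕ} (K : Set ℂ) (f : Fin d → ℂ → ℂ) (ξ : ℕ → ℂ) (k : ℕ) (T : ℝ) (a : Fin (g + 1) → ℤ) : Prop :=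
  NoRelation ξ k T fun q : {x // x ∈ roots K a} × Fin d => f q.2 q.1

/-- The polynomial with the coefficients `a` has degree `g` and simple roots, and there is no relation between the values
of the functions `f` at all its roots in `K` together. -/
def Good {g d : ℕ} (K : Set ℂ) (f : Fin d → ℂ → ℂ) (ξ : ℕ → ℂ) (k : ℕ) (T : ℝ) (a : Fin (g + 1) → ℤ) : Prop :=
  a (Fin.last g) ≠ 0 ∧ (poly a).Separable ∧ Free K f ξ k T a

/-- The points of `K` are near the complement of `V` only in the neighbourhood of points of a locally finite set `S`, or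
of the real line: for `z` in `K` and `w` outside `V` the distance is at least the distance of `z` to some point of `S`,
or at least `|im z| ≠ 0`, or at least `c`. For instance `K` is a compact subset of `V`, or `K = V` is the complement of a
locally finite set, or the upper half-plane, or the complement of closed subset of the real line. -/
def Tame (K V : Set ℂ) : Prop :=
  ∃ (S : Set ℂ) (c : ℝ), 0 < c ∧ (∀ R : ℝ, (S ∩ Metric.closedBall 0 R).Finite) ∧
    ∀ z ∈ K, ∀ w, w ∉ V → (∃ p ∈ S, ‖z - p‖ ≤ ‖z - w‖) ∨ (z.im ≠ 0 ∧ |z.im| ≤ ‖z - w‖) ∨ c ≤ ‖z - w‖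

/-- The polynomial with the coefficients `a` has degree `g` and simple roots, its roots are of absolute value at most `R`
and at distance at least `η` from each other, and the roots in `K` are at distance at least `η` from the complement of
`V`. -/
def Position {g : ℕ} (K V : Set ℂ) (R η : ℝ) (a : Fin (g + 1) → ℤ) : Prop :=
  a (Fin.last g) ≠ 0 ∧ (poly a).Separable ∧ ∀ z, (poly a).eval z = 0 → ‖z‖ ≤ R ∧
    (∀ w, (poly a).eval w = 0 → w ≠ z → η ≤ ‖z - w‖) ∧ (z ∈ K → Metric.ball z η ⊆ V)

open scoped Classical in
/-- For almost all integral polynomials of degree `g` there is no relation between the values of the functions `f` at all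
the roots in the sets `K` together: there is `ω(T) → ∞` such that among the `(2 T + 1) ^ (g + 1)` polynomials with
coefficients at most `T` at most the proportion `1 / ω(T)` is not good for the set `K (ω T)`. -/
def AlmostAll (g : ℕ) {d : ℕ} (K : ℕ → Set ℂ) (f : Fin d → ℂ → ℂ) (ξ : ℕ → ℂ) : Prop :=
  ∃ ω : ℕ → ℕ, Tendsto ω atTop atTop ∧ Monotone ω ∧ ∀ T : ℕ,
    ω T * ((box g T).filter fun a => ¬ Good (K (ω T)) f ξ (ω T) T a).card ≤ (box g T).card

open scoped Classical in
/-- For the polynomials with roots in a compact position there is a power saving. -/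
def PowerSaving (g : ℕ) {d : ℕ} (K V : Set ℂ) (f : Fin d → ℂ → ℂ) (ξ : ℕ → ℂ) : Prop :=
  ∀ (k : ℕ) (R η ε : ℝ), 0 < η → 0 < ε → ∃ C : ℝ, ∀ T : ℕ, 1 ≤ T →
    (((box g T).filter fun a => Position K V R η a ∧ ¬ Free K f ξ k T a).card : ℝ) ≤ C * (T : ℝ) ^ ((g : ℝ) + ε)

section
variable {s n q : ℕ} {V : Set ℂ} {Λ : Fin q → PeriodPair} {ty : Fin n → Fin q} {l : Fin s → ℂ → ℂ} {u : Fin n → ℂ → ℂ}

/-- the names in the library -/
def nm : Pool.Agent.Y776.Cv.Nf n s → Name s n :=
  Sum.elim Name.l (Sum.elim Name.expl (Sum.elim Name.u (Sum.elim Name.zetau Name.wpu)))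

theorem nm_inj : Function.Injective (nm : Pool.Agent.Y776.Cv.Nf n s → Name s n) := by
  rintro (a | a | a | a | a) (b | b | b | b | b) hab
  all_goals first
    | (simp only [nm, Sum.elim_inl, Sum.elim_inr, Name.l.injEq, Name.expl.injEq, Name.u.injEq, Name.zetau.injEq,
         Name.wpu.injEq] at hab
       rw [hab])
    | (simp [nm] at hab)

theorem nm_val (a : Pool.Agent.Y776.Cv.Nf n s) : value Λ ty l u (nm a) = Pool.Agent.Y776.Cv.yf Λ ty u l a := by
  rcases a with a | a | a | a | a <;> rfl

theorem Curve.fx (h : Curve V Λ ty l u) (hΛ : ∀ c c', c ≠ c' → NoHom (Λ c) (Λ c')) :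
    Pool.Agent.Y776.Cv.FxM V Λ ty u l where
  isOpen := h.isOpen
  conn := h.isPreconnected
  ni := hΛ
  ua := h.an_u
  un := h.notMem
  ui := h.free.elliptic
  la := h.an_l
  li := h.free.torus

theorem main (hsn : 0 < s + n) (h : Curve V Λ ty l u) (hΛ : ∀ c c', c ≠ c' → NoHom (Λ c) (Λ c')) :
    ∃ e : Fin (s + 2 * n) → Name s n, Function.Injective e ∧
      (∀ (g : ℕ), 0 < g → ∀ (ξ : ℕ → ℂ) (K : ℕ → Set ℂ), (∀ k, Tame (K k) V) →
        AlmostAll g K (fun j => value Λ ty l u (e j)) ξ) ∧
      ∀ (g : ℕ), 0 < g → ∀ (ξ : ℕ → ℂ) (K : Set ℂ), PowerSaving g K V (fun j => value Λ ty l u (e j)) ξ := by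
  obtain ⟨e, he, hI⟩ := Pool.Agent.Y776.Cv.fix_sub (h.fx hΛ) hsn h.nonempty
  have hI' : Pool.Agent.X255.RH.Indep V fun j => value Λ ty l u (nm (e j)) := by
    have h1 : (fun j => value Λ ty l u (nm (e j))) = fun j => Pool.Agent.Y776.Cv.yf Λ ty u l (e j) := by
      funext j
      exact nm_val (e j)
    rw [h1]
    exact Pool.Agent.H46AR.indep_of_loc h.isOpen h.nonempty hI
  have han : ∀ j, AnalyticOnNhd ℂ (value Λ ty l u (nm (e j))) V := by
    intro j
    rw [nm_val]
    exact Pool.Agent.Y776.Cv.yf_an (h.fx hΛ) (e j)
  refine ⟨fun j => nm (e j), nm_inj.comp he, fun g hg ξ K hK => ?_, fun g hg ξ K k R η ε hη hε => ?_⟩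
  · exact Pool.Agent.X255.RH.main_all hg h.isPreconnected h.isOpen K hK han hI' ξ
  · exact Pool.Agent.X255.RH.main_eps hg h.isPreconnected h.isOpen han hI' K ξ k R η ε hη hε

/-- the points at which no `u_i` is in its lattice -/
def noPole {n q : ℕ} (Λ : Fin q → PeriodPair) (ty : Fin n → Fin q) (u : Fin n → ℂ → ℂ) : Set ℂ :=
  {z | ∀ i, u i z ∉ (Λ (ty i)).lattice}

theorem nonconst (h : NotInTranslate Set.univ Λ ty l u) (i : Fin n) (b : ℂ) : ∃ z, u i z ≠ b := by
  classical
  by_contra hcon
  push Not at hcon
  have h1 := h.elliptic (ty i) (Pi.single i 1) b (fun j w hw => by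
    by_cases hj : j = i
    · rw [hj, Pi.single_eq_same, one_mul]
      exact hw
    · rw [Pi.single_eq_of_ne hj, zero_mul]
      exact zero_mem _) (fun j hj => by
    rw [Pi.single_eq_of_ne]
    rintro rfl
    exact hj rfl) (fun z _ => by
    rw [Finset.sum_eq_single i]
    · rw [Pi.single_eq_same, one_mul, hcon]
    · intro j _ hj
      rw [Pi.single_eq_of_ne hj, zero_mul]
    · intro hj
      exact absurd (Finset.mem_univ i) hj)
  have h2 := congrFun h1 i
  rw [Pi.single_eq_same] at h2
  exact one_ne_zero h2

theorem fin_poles (hu : ∀ i, Differentiable ℂ (u i)) (h : NotInTranslate Set.univ Λ ty l u) (R : ℝ) :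
    ((noPole Λ ty u)ᶜ ∩ Metric.closedBall 0 R).Finite :=
  Pool.Agent.H46AR.poles_finite Λ ty hu (nonconst h) R

theorem entire (hl : ∀ k, Differentiable ℂ (l k)) (hu : ∀ i, Differentiable ℂ (u i))
    (h : NotInTranslate Set.univ Λ ty l u) : Curve (noPole Λ ty u) Λ ty l u := by
  have h1 := fin_poles hu h
  have ho : IsOpen (noPole Λ ty u) := by
    have := Pool.Agent.H46AR.isOpen_of_loc h1
    rwa [compl_compl] at this
  have hc : IsConnected (noPole Λ ty u) := by
    have := Pool.Agent.H46AR.conn_of_loc h1
    rwa [compl_compl] at this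
  refine ⟨ho, hc.isPreconnected, hc.nonempty, fun k z _ => (hl k).analyticAt z, fun i z _ => (hu i).analyticAt z,
    fun i z hz => hz i, ⟨fun m b hb => h.torus m b fun z _ => ?_, fun c a b ha hty hb => h.elliptic c a b ha hty
      fun z _ => ?_⟩⟩
  · exact Pool.Agent.H46AR.eq_const (f := fun z => ∑ k, (m k : ℂ) * l k z)
      (Differentiable.fun_sum fun k _ => (hl k).const_mul _) ho hc.nonempty hb z
  · exact Pool.Agent.H46AR.eq_const (f := fun z => ∑ i, a i * u i z)
      (Differentiable.fun_sum fun i _ => (hu i).const_mul _) ho hc.nonempty hb z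

end

/-- **Analytic curves at all roots of almost all polynomials.** Let `Λ_1, …, Λ_q` be lattices such that there are no
homomorphisms between the elliptic curves of different lattices, and `s + n ≥ 1`.

(1) Let `(l, u)` be an analytic curve over a connected open set `V` as above. One can choose `s + 2 n` of the `2 s + 3 n`
functions `l_k`, `exp(l_k)`, `u_i`, `ζ(u_i)`, `℘(u_i)` such that for every degree `g ≥ 1` and all complex numbers
`ξ_0, ξ_1, …`: for all sets `K_0, K_1, …` which are tame in `V` the chosen functions have no relations at the roots of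
almost all integral polynomials of degree `g`, and for every set `K` there is a power saving for the polynomials with
roots in a compact position.

(2) Let `l_k` and `u_i` be entire functions such that the curve `(l, u)` is not in a translate of the Lie algebra of an
algebraic subgroup. One can choose `s + 2 n` of the functions such that for every degree `g ≥ 1` and all complex numbers
`ξ_0, ξ_1, …` they have no relations at the roots of almost all integral polynomials of degree `g`, where all roots `x`
are considered at which no `u_i(x)` is in its lattice. -/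
theorem result (s n q : ℕ) (hsn : 0 < s + n) (Λ : Fin q → PeriodPair) (hΛ : ∀ c c', c ≠ c' → NoHom (Λ c) (Λ c'))
    (ty : Fin n → Fin q) (l : Fin s → ℂ → ℂ) (u : Fin n → ℂ → ℂ) :
    (∀ V : Set ℂ, Curve V Λ ty l u → ∃ e : Fin (s + 2 * n) → Name s n, Function.Injective e ∧
      (∀ (g : ℕ), 0 < g → ∀ (ξ : ℕ → ℂ) (K : ℕ → Set ℂ), (∀ k, Tame (K k) V) →
        AlmostAll g K (fun j => value Λ ty l u (e j)) ξ) ∧
      ∀ (g : ℕ), 0 < g → ∀ (ξ : ℕ → ℂ) (K : Set ℂ), PowerSaving g K V (fun j => value Λ ty l u (e j)) ξ) ∧
    ((∀ k, Differentiable ℂ (l k)) → (∀ i, Differentiable ℂ (u i)) → NotInTranslate Set.univ Λ ty l u →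
      ∃ e : Fin (s + 2 * n) → Name s n, Function.Injective e ∧ ∀ (g : ℕ), 0 < g → ∀ ξ : ℕ → ℂ,
        AlmostAll g (fun _ => {z | ∀ i, u i z ∉ (Λ (ty i)).lattice}) (fun j => value Λ ty l u (e j)) ξ) := by
  refine ⟨fun V h => main hsn h hΛ, fun hl hu h => ?_⟩
  obtain ⟨e, he, h1, -⟩ := main hsn (entire hl hu h) hΛ
  refine ⟨e, he, fun g hg ξ => h1 g hg ξ _ fun _ => ?_⟩
  have h2 := Pool.Agent.X255.RH.tame_of_discrete (fin_poles hu h)
  rw [compl_compl] at h2
  exact h2

end Pool.Agent.Results.MP_4aec10_nt.AnalyticCurvesAtAllRoots
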