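import Mathlib
import Pool.Agent.H39D.D2

/-!
# The Hausdorff dimension of the set of the exceptions to the weak relative conjecture

`Λ c`, `c = 1, …, q`, are arbitrary lattices in `ℂ`, without homomorphisms between `ℂ / Λ c` and `ℂ / Λ c'` for
`c ≠ c'`, and `G = 𝔾ₘ^s × E_1 × ⋯ × E_n` is the product of a torus and of elliptic curves, where `E_i` has the lattice
`Λ (ty i)`; the same curve may occur several times. A point `r = (t, z)` of `Lie G_ℂ = ℂ^s × ℂ^n` has the image
`exp_G(r)` with the components `exp(t_l)`, `℘(z_i)`, `℘'(z_i)` (no numbers for `z_i` in the lattice, where the point of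
`E_i` is the origin). Let `F` be any countable subfield of `ℂ`, for instance the algebraic closure of the field generated
by the periods of `G` (if the invariants of the lattices are algebraic).

**Theorem.** For every `k` the set of all `r` in `Lie G_ℂ` with `tr.deg_F F(r, exp_G(r)) < k` has Hausdorff dimension at
most `2 ⌊(k - 1) / 2⌋`, and it is countable if `k ≤ 2`.

For `k = dim G = s + n` this set contains all `r` for which the inequality of the conjecture is wrong, as
`d(exp_G(r)) ≤ dim G`. So for every `G` the exceptions form a set of Hausdorff dimension at most `dim G - 1` in the space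
`Lie G_ℂ` of real dimension `2 dim G`, and a countable set if `dim G ≤ 2`.

In other words: a subset of `Lie G_ℂ` of Hausdorff dimension greater than `k` contains a point `r` with
`tr.deg_F F(r, exp_G(r)) > k`.

## The proof

* There is a countable algebraically closed field `K ⊇ F` such that every number outside `K` which occurs in a tuple
  `(t, z)` can be moved by a derivation over `K` which is compatible with the exponential map at `(t, z)` (`H39D.B`, after
  `Pool.Agent.Y776.Sys`).
* Let `(t, z)` be independent modulo `K` (over `ℚ`, and over the fields of multipliers of the lattices), and let `μ` be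
  the dimension of the space of the directions in which `(t, z)` is moved by the compatible derivations over `K`. Then
  the numbers `t, exp(t), z, ζ(z), ℘(z)` have transcendence degree at least `s + 2 n + μ` over `K`, and the numbers
  without `ζ(z)` at least `s + n + μ` (`H39D.rank_Cl`; by Ax's theorem for a single derivation there are no linear
  relations between the differentials, and this gives the bound with the whole space of derivations).
* The points with `μ ≤ m` lie in countably many complex submanifolds of dimension `m`, by the theorem on implicit
  functions (`H39D.dimH_rank`).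
* An arbitrary point `r` is the image of an independent tuple with `h` coordinates under one of countably many affine
  maps. If the transcendence degree is less than `k` then `h + μ < k`, so that `min(h, μ) ≤ (k - 1) / 2`.
-/

set_option autoImplicit false

open scoped PeriodPair

namespace Pool.Agent.Results.MP_4aec10_nt.DimensionOfExceptions

/-- there is no homomorphism except `0` from the elliptic curve `ℂ / L` to `ℂ / M` -/
def NoHom (L M : PeriodPair) : Prop := ∀ α : ℂ, (∀ w ∈ L.lattice, α * w ∈ M.lattice) → α = 0

/-- the components of the point `r = (t, z)` of the Lie algebra -/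
def components {s n : ℕ} (r : (Fin s → ℂ) × (Fin n → ℂ)) : Set ℂ := Set.range r.1 ∪ Set.range r.2

/-- the components of `exp_G(r)`: the numbers `exp(t_l)`, and the numbers `℘(z_i)`, `℘'(z_i)` for all `i` such that `z_i`
is not in the lattice `Λ (ty i)` -/
def image {q s n : ℕ} (Λ : Fin q → PeriodPair) (ty : Fin n → Fin q) (r : (Fin s → ℂ) × (Fin n → ℂ)) : Set ℂ :=
  {w | (∃ l, w = Complex.exp (r.1 l)) ∨
    ∃ i, r.2 i ∉ (Λ (ty i)).lattice ∧ (w = ℘[Λ (ty i)] (r.2 i) ∨ w = ℘'[Λ (ty i)] (r.2 i))}

/-- the transcendence degree over `F` of the field generated by `S` over `F` -/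
noncomputable def trd (F : IntermediateField ℚ ℂ) (S : Set ℂ) : Cardinal :=
  Algebra.trdeg F (IntermediateField.adjoin F S)

/-- **The dimension of the set of the exceptions.** Let `G` be the product of `𝔾ₘ^s` and of `n` elliptic curves with the
lattices `Λ (ty i)`, where the `Λ c` are pairwise without homomorphisms, and let `F` be a countable field. For all `k` the
set of the points `r` of the Lie algebra with `tr.deg_F F(r, exp_G(r)) < k` has Hausdorff dimension at most
`2 ⌊(k - 1) / 2⌋`, and it is countable if `k ≤ 2`. -/
theorem result {q s n : ℕ} (Λ : Fin q → PeriodPair) (hΛ : ∀ c c', c ≠ c' → NoHom (Λ c) (Λ c')) (ty : Fin n → Fin q)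
    (F : IntermediateField ℚ ℂ) (hF : (F : Set ℂ).Countable) (k : ℕ) :
    dimH {r : (Fin s → ℂ) × (Fin n → ℂ) | trd F (components r ∪ image Λ ty r) < k} ≤
        ((2 * ((k - 1) / 2) : ℕ) : ENNReal) ∧
      (k ≤ 2 → {r : (Fin s → ℂ) × (Fin n → ℂ) | trd F (components r ∪ image Λ ty r) < k}.Countable) := by
  have h1 : {r : (Fin s → ℂ) × (Fin n → ℂ) | trd F (components r ∪ image Λ ty r) < k} =
      {r : (Fin s → ℂ) × (Fin n → ℂ) |
        (Pool.Agent.TH813.Rel.MK F).eRk (Pool.Agent.H39D.Val Λ ty r) < (k : ℕ∞)} := by
    ext r
    exact Pool.Agent.TH813.Rel.lt_iff (k := F) (Pool.Agent.H39D.Val Λ ty r) k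
  rw [h1]
  exact Pool.Agent.H39D.dim_points hΛ ty s hF k

end Pool.Agent.Results.MP_4aec10_nt.DimensionOfExceptions
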