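import Mathlib
import Pool.Agent.H61GM.G

/-!
# Schanuel inequalities for generic multipliers and generic linear subspaces, for split semi-abelian varieties

`Λ c`, `c = 1, …, q`, are arbitrary lattices in `ℂ`, without homomorphisms between `ℂ / Λ c` and `ℂ / Λ c'` for
`c ≠ c'`, and `G = 𝔾ₘ^s × E_1 × ⋯ × E_n` is the product of a torus and of elliptic curves, where `E_i` has the lattice
`Λ (ty i)`; the same curve may occur several times. A point `r = (t, z)` of `Lie G_ℂ = ℂ^s × ℂ^n` has the image
`exp_G(r)` with the components `exp(t_l)`, `℘(z_i)`, `℘'(z_i)` (no numbers for `z_i` in the lattice, where the point of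
`E_i` is the origin). Let `F` be any countable subfield of `ℂ`, for instance the algebraic closure of the field generated
by the periods of `G` (if the invariants of the lattices are algebraic).

**Theorem.** There are countable algebraically closed fields `C(a) ⊇ F`, one for each finite list `a` of complex
numbers, with `C = C()`, such that for all generic lists `u = (u_1, …, u_m)` (that is, `u_i` is not in
`C(u_{i+1}, …, u_m)`, for instance a single number `u` outside the countable field `C`) the following is true.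

* Let `v + W` be an affine subspace of `Lie G` which is defined over the algebraic closure of `C(u)`. Then
  `tr.deg_{C(u)} exp_G(r) ≥ h(r) - dim W` for all `r` in `v + W`. Here `h(r)` is the dimension of the smallest space
  `c + Lie H`, with `H` an algebraic subgroup of `G` and `c` a point with components in `C`, which contains `r`; so
  `h(r) = dim G` if `r` is in no `c + Lie H` with `H ≠ G`.
* The weak conjecture relative to the field `C(u)`: `tr.deg_{C(u)} (r, exp_G(r)) ≥ h(r)` for all `r` in `Lie G`.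
* For a number `x` outside `C` and all `r` which are not in the Lie algebra of a proper algebraic subgroup of `G` the
  numbers `exp_G(r)`, `exp_G(x r)` have transcendence degree at least `dim G` over `C(x)`.

The general result is an inequality for the values of `exp` at the points of a `ℚ`-space `V_0` and the values of `℘` (or
of `℘` and `ζ`) of the lattice `Λ_c` at the points of a space `V_c` over the field of multipliers of `Λ_c`.
For the exponential function alone and linear subspaces over `ℚ(u)` the results are due to Bays, Kirby and Wilkie.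

## The proof (in `Pool.Agent.H61GM`)

Induction on the length of the list, with countable fields `C(a)` which are closed for the derivations compatible with
the exponential map (`Pool.Agent.H39D`). Let `u = (a, l)` and `K = C(l)`. The parts `V_o ∩ K` are treated by the
hypothesis of the induction; their dimension over the field of coefficients does not become smaller when `a` is
adjoined, as `a` is not in `K` (`disj_S`, `disj_clo`). By Ax's theorem the numbers `x`, `exp x`, or `x, ℘(x), ζ(x)`, for a
basis of a complement, have transcendence degree at least `s' + 2 n' + 1` over `K` (`H39D.rank_one`), and the points `x`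
account at most for their dimension over the field of coefficients, modulo `K` (`split`). The theorem on `exp_G(r)` and
`exp_G(x r)` follows with the inequality `dim (V + x V) ≥ dim V + dim_{k(x)} V` (`dim_two`).
-/

set_option autoImplicit false

open Module
open scoped PeriodPair

namespace Pool.Agent.Results.MP_4aec10_nt.GenericMultipliers

/-- there is no homomorphism except `0` from the elliptic curve `ℂ / L` to `ℂ / M` -/
def NoHom (L M : PeriodPair) : Prop := ∀ α : ℂ, (∀ w ∈ L.lattice, α * w ∈ M.lattice) → α = 0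

/-- The Weierstrass zeta function `ζ(z) = ∑ (1/(z-l) + 1/l + z/l²)`, the sum over the lattice (the
summand of `l = 0` is `1/z`, since `1/0 = 0` in Lean). -/
noncomputable def ζ (L : PeriodPair) (z : ℂ) : ℂ :=
  ∑' l : L.lattice, (1 / (z - l) + 1 / l + z / l ^ 2)

variable {q : ℕ}

/-- The fields of multipliers: `k Λ none` is the field of rational numbers and `k Λ (some c)` is the field
`ℚ ⊗ End(ℂ / Λ c)`, as subfields of `ℂ`; see `mem_k_none` and `mem_k_some`. -/
noncomputable abbrev k (Λ : Fin q → PeriodPair) (o : Option (Fin q)) : IntermediateField ℚ ℂ :=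
  Pool.Agent.H61GM.kk Λ o

theorem mem_k_none {Λ : Fin q → PeriodPair} {x : ℂ} : x ∈ k Λ none ↔ ∃ r : ℚ, (r : ℂ) = x :=
  IntermediateField.mem_bot

theorem mem_k_some {Λ : Fin q → PeriodPair} {c : Fin q} {x : ℂ} :
    x ∈ k Λ (some c) ↔ ∃ n : ℕ, 0 < n ∧ ∀ w ∈ (Λ c).lattice, (n * x) * w ∈ (Λ c).lattice := Iff.rfl

/-- A family of subspaces of `ℂ`: `V none` over `ℚ`, and `V (some c)` over the field `k Λ (some c)`. -/
abbrev Spaces (Λ : Fin q → PeriodPair) : Type := ∀ o : Option (Fin q), Submodule (k Λ o) ℂ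

/-- The values `exp x`, `x` in `V none`, and `℘(x)` (and `ζ(x)`, if `b = true`) for all `c` and all `x` in
`V (some c)` outside the lattice `Λ c`. -/
def values (Λ : Fin q → PeriodPair) (b : Bool) (V : Spaces Λ) : Set ℂ :=
  {w | (∃ x ∈ V none, w = Complex.exp x) ∨ ∃ c, ∃ x ∈ V (some c), x ∉ (Λ c).lattice ∧
    (w = ℘[Λ c] x ∨ (b = true ∧ w = ζ (Λ c) x))}

/-- `dim V_none + ∑ dim V_c`, or `dim V_none + 2 ∑ dim V_c` if `b = true` -/
noncomputable def weight {Λ : Fin q → PeriodPair} (b : Bool) (V : Spaces Λ) : ℕ :=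
  finrank (k Λ none) (V none) + (if b then 2 else 1) * ∑ c, finrank (k Λ (some c)) (V (some c))

/-- The spaces `V o ∩ K` (for algebraically closed `K` this is a space over `k Λ o`). -/
noncomputable def part {Λ : Fin q → PeriodPair} (K : Subfield ℂ) (V : Spaces Λ) : Spaces Λ :=
  fun o => Submodule.span (k Λ o) {x | x ∈ V o ∧ x ∈ K}

/-- The union of the spaces `V o` with `β o = i`. -/
def block {Λ : Fin q → PeriodPair} {ι : Type} (β : Option (Fin q) → ι) (V : Spaces Λ) (i : ι) :
    Set ℂ := {x | ∃ o, β o = i ∧ x ∈ V o}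

/-- The dimension over `E` of the space generated by `X`. -/
noncomputable def dim (E : IntermediateField ℚ ℂ) (X : Set ℂ) : ℕ := finrank E (Submodule.span E X)

/-- The field `E(u)`. -/
noncomputable def adj (E : IntermediateField ℚ ℂ) (u : List ℂ) : IntermediateField ℚ ℂ :=
  E ⊔ IntermediateField.adjoin ℚ {x | x ∈ u}

/-- The algebraic closure of `K(u)` in `ℂ`. -/
noncomputable def acl (K : Subfield ℂ) (u : List ℂ) : IntermediateField ℚ ℂ :=
  (algebraicClosure (IntermediateField.adjoin K {x | x ∈ u}) ℂ).restrictScalars ℚ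

/-- The transcendence degree over `K` of the field generated by `S` over `K`. -/
noncomputable def trd (K : Subfield ℂ) (S : Set ℂ) : Cardinal :=
  Algebra.trdeg K (IntermediateField.adjoin K S)

/-- `(u₁, …, u_m)` is generic: `u_i` is not in the field which belongs to the list `(u_{i+1}, …, u_m)`. -/
def Generic (C : List ℂ → Subfield ℂ) : List ℂ → Prop
  | [] => True
  | x :: a => x ∉ C a ∧ Generic C a

/-- Countable algebraically closed fields `C a`, for all finite lists `a` of complex numbers, which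
contain `F`, the elements of the list and the fields of the tails of the list. -/
def Fields (F : Type) [Field F] [Algebra F ℂ] (C : List ℂ → Subfield ℂ) : Prop :=
  (∀ a, (C a : Set ℂ).Countable) ∧ (∀ a x, IsAlgebraic (C a) x → x ∈ C a) ∧
    (∀ x a, x ∈ C (x :: a) ∧ C a ≤ C (x :: a)) ∧ ∀ x : F, algebraMap F ℂ x ∈ C []

/-- the components of the point `r = (t, z)` of the Lie algebra -/
def components {s n : ℕ} (r : (Fin s → ℂ) × (Fin n → ℂ)) : Set ℂ := Set.range r.1 ∪ Set.range r.2

/-- the components of `exp_G(r)`: the numbers `exp(t_l)`, and the numbers `℘(z_i)`, `℘'(z_i)` for all `i` such that `z_i`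
is not in the lattice `Λ (ty i)` -/
def image {s n : ℕ} (Λ : Fin q → PeriodPair) (ty : Fin n → Fin q) (r : (Fin s → ℂ) × (Fin n → ℂ)) : Set ℂ :=
  {w | (∃ l, w = Complex.exp (r.1 l)) ∨
    ∃ i, r.2 i ∉ (Λ (ty i)).lattice ∧ (w = ℘[Λ (ty i)] (r.2 i) ∨ w = ℘'[Λ (ty i)] (r.2 i))}

/-- The spaces generated by the components of `r = (t, z)`: by all `t_l` over `ℚ`, and by the `z_i` with `ty i = c`
over the field of multipliers of `Λ c`. -/
noncomputable def spaces {s n : ℕ} (Λ : Fin q → PeriodPair) (ty : Fin n → Fin q)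
    (r : (Fin s → ℂ) × (Fin n → ℂ)) : Spaces Λ
  | none => Submodule.span _ (Set.range r.1)
  | some c => Submodule.span _ {x | ∃ i, ty i = c ∧ x = r.2 i}

/-- The dimension of the smallest space `c + Lie H` which contains `r`, where `H` is an algebraic subgroup and the
components of `c` are in `K`: the sum of the codimensions of `V o ∩ K` in the spaces `V o` of the components. -/
noncomputable def height {s n : ℕ} (K : Subfield ℂ) (Λ : Fin q → PeriodPair) (ty : Fin n → Fin q)
    (r : (Fin s → ℂ) × (Fin n → ℂ)) : ℕ :=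
  ∑ o, (finrank (k Λ o) (spaces Λ ty r o) - finrank (k Λ o) (part K (spaces Λ ty r) o))

/-- No combination of the `t_l` with rational coefficients, and for no `c` a combination of the `z_i` with `ty i = c`
with multipliers of `Λ c` as coefficients, is in `K`, except if all coefficients are zero. -/
def Free {s n : ℕ} (K : Set ℂ) (Λ : Fin q → PeriodPair) (ty : Fin n → Fin q)
    (r : (Fin s → ℂ) × (Fin n → ℂ)) : Prop :=
  (∀ a : Fin s → ℚ, ∑ l, (a l : ℂ) * r.1 l ∈ K → a = 0) ∧
    ∀ (c : Fin q) (a : Fin n → ℂ), (∀ i, a i ∈ k Λ (some c)) → (∀ i, ty i ≠ c → a i = 0) →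
      ∑ i, a i * r.2 i ∈ K → a = 0

/-- The affine space `v + W` is defined over `M`: the components of `v` are in `M`, and `W` is generated by vectors
with components in `M`. -/
def DefinedOver {s n : ℕ} (M : IntermediateField ℚ ℂ) (v : (Fin s → ℂ) × (Fin n → ℂ))
    (W : Submodule ℂ ((Fin s → ℂ) × (Fin n → ℂ))) : Prop :=
  components v ⊆ M ∧ W = Submodule.span ℂ {w | w ∈ W ∧ components w ⊆ M}

/-- The spaces `V + x V`. -/
noncomputable def plus {Λ : Fin q → PeriodPair} (x : ℂ) (V : Spaces Λ) : Spaces Λ :=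
  fun o => V o ⊔ (V o).map (LinearMap.mulLeft (k Λ o) x)

open scoped IntermediateField.algebraAdjoinAdjoin in
theorem acl_eq (K : Subfield ℂ) (u : List ℂ) : acl K u = Pool.Agent.H61GM.M1 K u () := by
  ext x
  rw [Pool.Agent.H61GM.mem_M1]
  exact mem_algebraicClosure_iff.trans (IsFractionRing.isAlgebraic_iff
    (Algebra.adjoin K {x | x ∈ u}) (IntermediateField.adjoin K {x | x ∈ u}) ℂ).symm

theorem part_eq {Λ : Fin q → PeriodPair} {K : Subfield ℂ} (hK : ∀ x, IsAlgebraic K x → x ∈ K)
    (V : Spaces Λ) : part K V = Pool.Agent.H61GM.prt hK V := by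
  funext o
  exact Submodule.span_eq (Pool.Agent.H61GM.prt hK V o)

theorem weight_eq {Λ : Fin q → PeriodPair} (b : Bool) (V : Spaces Λ) :
    weight b V = Pool.Agent.H61GM.wt b V := by
  unfold weight Pool.Agent.H61GM.wt
  cases b <;> rfl

theorem values_eq {Λ : Fin q → PeriodPair} (b : Bool) (V : Spaces Λ) :
    values Λ b V = Pool.Agent.H61GM.vals Λ b V := by
  ext w
  constructor
  · rintro (⟨x, hx, hw⟩ | ⟨c, x, hx, hxL, hw | ⟨hb, hw⟩⟩)
    · exact Or.inl ⟨x, hx, hw⟩
    · exact Or.inr ⟨c, x, hx, hxL, Or.inl hw⟩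
    · exact Or.inr ⟨c, x, hx, hxL, Or.inr ⟨hb, hw.trans
        (Pool.Agent.W245.EB.zt_of_notMem hxL).symm⟩⟩
  · rintro (⟨x, hx, hw⟩ | ⟨c, x, hx, hxL, hw | ⟨hb, hw⟩⟩)
    · exact Or.inl ⟨x, hx, hw⟩
    · exact Or.inr ⟨c, x, hx, hxL, Or.inl hw⟩
    · exact Or.inr ⟨c, x, hx, hxL, Or.inr ⟨hb, hw.trans
        (Pool.Agent.W245.EB.zt_of_notMem hxL)⟩⟩

theorem height_eq {s n : ℕ} {K : Subfield ℂ} (hK : ∀ x, IsAlgebraic K x → x ∈ K)
    (Λ : Fin q → PeriodPair) (ty : Fin n → Fin q) (r : (Fin s → ℂ) × (Fin n → ℂ)) :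
    height K Λ ty r + Pool.Agent.H61GM.wt false (Pool.Agent.H61GM.prt hK
      (Pool.Agent.H61GM.VR Λ ty r)) = Pool.Agent.H61GM.wt false (Pool.Agent.H61GM.VR Λ ty r) := by
  have hsp : spaces Λ ty r = Pool.Agent.H61GM.VR Λ ty r := by
    funext o
    rcases o with _ | c <;> rfl
  have hw : ∀ U : Spaces Λ, Pool.Agent.H61GM.wt false U = ∑ o, finrank (k Λ o) (U o) := by
    intro U
    rw [Fintype.sum_option]
    unfold Pool.Agent.H61GM.wt
    simp
  rw [hw, hw]
  unfold height
  rw [hsp, part_eq hK, ← Finset.sum_add_distrib]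
  refine Finset.sum_congr rfl (fun o _ => ?_)
  have := Pool.Agent.H61GM.VR_fd (Λ := Λ) ty r o
  exact Nat.sub_add_cancel (Submodule.finrank_mono (Pool.Agent.H61GM.prt_le hK _ o))

theorem add_cancel {a d m : ℕ} {T : Cardinal} (h : ((a + m : ℕ) : Cardinal) ≤ T + ((d + m : ℕ) : Cardinal)) :
    ((a : ℕ) : Cardinal) ≤ T + (d : Cardinal) := by
  have h5 : ((a : ℕ) : Cardinal) + ((m : ℕ) : Cardinal) ≤ (T + (d : Cardinal)) + ((m : ℕ) : Cardinal) := by
    rw [add_assoc]
    exact_mod_cast h
  exact (Cardinal.add_le_add_iff_of_lt_aleph0 (Cardinal.natCast_lt_aleph0)).1 h5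

theorem add_cancel0 {a m : ℕ} {T : Cardinal} (h : ((a + m : ℕ) : Cardinal) ≤ T + ((m : ℕ) : Cardinal)) :
    ((a : ℕ) : Cardinal) ≤ T := by
  rw [Nat.cast_add] at h
  exact (Cardinal.add_le_add_iff_of_lt_aleph0 (Cardinal.natCast_lt_aleph0)).1 h

/-- Let `Λ c`, `c = 1, …, q`, be lattices which are pairwise without homomorphisms, and `F` a countable field of complex
numbers. There are countable algebraically closed fields `C a`, for all finite lists `a` of complex numbers, which
contain `F`, the elements of the list and the fields of the tails of the list, such that (1) - (4) are true for all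
generic lists `u = (u_1, …, u_m)`, and (5), (6) for all numbers `x` outside `C []`.

(1) Let `V none` be a `ℚ`-space and `V (some c)` spaces over the fields of multipliers of the lattices, of finite
dimension, distributed to blocks `i`, with fields `E i ⊆ C []` which contain the fields `k Λ o` of the spaces of the
block. Let `d_i` be the dimension over `E_i(u)` of the space generated by the block, and `δ_i` the dimension over `E_i`
of the space generated by the numbers of the `V o` of the block which are in `C []`. Then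
`weight V + m + ∑ δ_i ≤ trdeg_C (u, values at V) + ∑ d_i + weight (V ∩ C)`, `C = C []`.

(2) If `d` is the dimension of the space generated by `1` and all `V o` over the algebraic closure of `C(u)` then
`weight V + m + 1 ≤ trdeg_C (u, values at V) + d + weight (V ∩ C)`.

(3) For all points `r` of the Lie algebra of `G`: `h(r) + m ≤ trdeg_C (u, r, exp_G(r))`, and `h(r) = dim G` if `r` is free
modulo `C`.

(4) If `v + W` is an affine subspace of the Lie algebra of `G` which is defined over the algebraic closure of `C(u)` then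
`h(r) + m ≤ trdeg_C (u, exp_G(r)) + dim W` for all `r` in `v + W`.

(5) `weight V + 1 ≤ trdeg_C (x, values at V + x V)`.

(6) If `r` is not in the Lie algebra of a proper algebraic subgroup then
`dim G + 1 ≤ trdeg_C (x, exp_G(r), exp_G(x r))`. -/
theorem result (Λ : Fin q → PeriodPair) (hΛ : ∀ c c', c ≠ c' → NoHom (Λ c) (Λ c')) (F : Type) [Field F]
    [Algebra F ℂ] [Countable F] :
    ∃ C : List ℂ → Subfield ℂ, Fields F C ∧
      (∀ u : List ℂ, Generic C u →
        (∀ (b : Bool) (V : Spaces Λ), (∀ o, FiniteDimensional (k Λ o) (V o)) →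
          (∀ (ι : Type) [Fintype ι] (β : Option (Fin q) → ι) (E : ι → IntermediateField ℚ ℂ),
            (∀ o, k Λ o ≤ E (β o)) → (∀ i, (E i : Set ℂ) ⊆ C []) →
            ((weight b V + u.length + ∑ i, dim (E i) (block β (part (C []) V) i) : ℕ) : Cardinal) ≤
              trd (C []) ({x | x ∈ u} ∪ values Λ b V) +
                ((∑ i, dim (adj (E i) u) (block β V i) + weight b (part (C []) V) : ℕ) : Cardinal)) ∧
          ((weight b V + u.length + 1 : ℕ) : Cardinal) ≤ trd (C []) ({x | x ∈ u} ∪ values Λ b V) +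
            ((dim (acl (C []) u) ({1} ∪ ⋃ o, (V o : Set ℂ)) + weight b (part (C []) V) : ℕ) : Cardinal)) ∧
        ∀ (s n : ℕ) (ty : Fin n → Fin q) (r : (Fin s → ℂ) × (Fin n → ℂ)),
          (((height (C []) Λ ty r + u.length : ℕ) : Cardinal) ≤
              trd (C []) ({x | x ∈ u} ∪ (components r ∪ image Λ ty r)) ∧
            (Free (C [] : Set ℂ) Λ ty r → height (C []) Λ ty r = s + n)) ∧
          ∀ (v : (Fin s → ℂ) × (Fin n → ℂ)) (W : Submodule ℂ ((Fin s → ℂ) × (Fin n → ℂ))),
            DefinedOver (acl (C []) u) v W → r - v ∈ W →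
            ((height (C []) Λ ty r + u.length : ℕ) : Cardinal) ≤
              trd (C []) ({x | x ∈ u} ∪ image Λ ty r) + ((finrank ℂ W : ℕ) : Cardinal)) ∧
      ∀ x : ℂ, x ∉ C [] →
        (∀ (b : Bool) (V : Spaces Λ), (∀ o, FiniteDimensional (k Λ o) (V o)) →
          ((weight b V + 1 : ℕ) : Cardinal) ≤ trd (C []) ({x} ∪ values Λ b (plus x V))) ∧
        ∀ (s n : ℕ) (ty : Fin n → Fin q) (r : (Fin s → ℂ) × (Fin n → ℂ)), Free {0} Λ ty r →
          ((s + n + 1 : ℕ) : Cardinal) ≤ trd (C []) ({x} ∪ (image Λ ty r ∪ image Λ ty (x • r))) := by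
  have hS : (Set.range (algebraMap F ℂ)).Countable := Set.countable_range _
  have hG : ∀ u : List ℂ, Generic (fun a => (Pool.Agent.H61GM.CL Λ hS a).1) u →
      Pool.Agent.H39E.Gen (fun a => (Pool.Agent.H61GM.CL Λ hS a).1) u := by
    intro u
    induction u with
    | nil => intro _; exact trivial
    | cons x a ih => intro h; exact ⟨h.1, ih h.2⟩
  refine ⟨fun a => (Pool.Agent.H61GM.CL Λ hS a).1, ⟨fun a => (Pool.Agent.H61GM.CL Λ hS a).2.cnt,
    fun a => (Pool.Agent.H61GM.CL Λ hS a).2.alg, fun x a => ⟨Pool.Agent.H61GM.CL_mem hS x a,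
      Pool.Agent.H61GM.CL_le hS x a⟩, fun x => Pool.Agent.H61GM.CL_base hS ⟨x, rfl⟩⟩,
    fun u hu => ⟨fun b V hV => ⟨fun ι _ β E hE hEC => ?_, ?_⟩, fun s n ty r => ⟨⟨?_, fun hr => ?_⟩,
      fun v W hvW hr => ?_⟩⟩, fun x hx => ⟨fun b V hV => ?_, fun s n ty r hr => ?_⟩⟩
  · obtain ⟨A, R, hA, hAv, hR, h⟩ := Pool.Agent.H61GM.main_rat
      (k := (Pool.Agent.H61GM.CL Λ hS []).1) hS hΛ (fun x => x.2) b (fun _ => ∅)
      (fun _ => Set.finite_empty) (fun _ => Set.empty_subset _) β E hE hEC u (hG u hu) V hV
    have h1 : ∀ (U : Spaces Λ) (i : ι), Pool.Agent.H61GM.SZ (fun _ => ∅) β U i = block β U i :=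
      fun U i => Set.empty_union _
    simp only [h1] at h
    rw [part_eq (Pool.Agent.H61GM.CL Λ hS []).2.alg, weight_eq, weight_eq, values_eq]
    refine Pool.Agent.H61GM.to_card hA hAv hR ?_
    rw [← add_assoc]
    exact h
  · obtain ⟨A, R, hA, hAv, hR, h⟩ := Pool.Agent.H61GM.main_clo
      (k := (Pool.Agent.H61GM.CL Λ hS []).1) hS hΛ (fun x => x.2) b u (hG u hu) V hV
    rw [part_eq (Pool.Agent.H61GM.CL Λ hS []).2.alg, weight_eq, weight_eq, values_eq, acl_eq]
    refine Pool.Agent.H61GM.to_card hA hAv hR ?_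
    rw [← add_assoc]
    exact h
  · have h := Pool.Agent.H61GM.final_pts hS hΛ u (hG u hu) ty r
    rw [← height_eq (Pool.Agent.H61GM.CL Λ hS []).2.alg,
      add_right_comm (height (Pool.Agent.H61GM.CL Λ hS []).1 Λ ty r)] at h
    exact add_cancel0 h
  · have h0 : (0 : ℂ) ∈ ((Pool.Agent.H61GM.CL Λ hS []).1 : Set ℂ) := zero_mem _
    have hr' : Pool.Agent.H61GM.Fre Λ ty ((Pool.Agent.H61GM.CL Λ hS []).1 : Set ℂ) r := hr
    have h := height_eq (Pool.Agent.H61GM.CL Λ hS []).2.alg Λ ty r
    have h1 : Pool.Agent.H61GM.prt (Pool.Agent.H61GM.CL Λ hS []).2.alg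
        (Pool.Agent.H61GM.VR Λ ty r) = fun o => ⊥ := funext fun o => hr'.inf _ o
    rw [h1, Pool.Agent.H61GM.wt_bot, hr'.dims h0 false] at h
    simpa using h
  · rw [acl_eq] at hvW
    have hL : W ≤ Submodule.span ℂ {v | v ∈ W ∧
        (∀ j, v.1 j ∈ Pool.Agent.H61GM.M1 (Pool.Agent.H61GM.CL Λ hS []).1 u ()) ∧
        ∀ i, v.2 i ∈ Pool.Agent.H61GM.M1 (Pool.Agent.H61GM.CL Λ hS []).1 u ()} := by
      intro w hw
      rw [hvW.2] at hw
      refine Submodule.span_mono ?_ hw
      rintro y ⟨hy, hyM⟩
      exact ⟨hy, fun j => hyM (Or.inl ⟨j, rfl⟩), fun i => hyM (Or.inr ⟨i, rfl⟩)⟩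
    have h := Pool.Agent.H61GM.final_L hS hΛ u (hG u hu) ty W hL
      (fun j => hvW.1 (Or.inl ⟨j, rfl⟩)) (fun i => hvW.1 (Or.inr ⟨i, rfl⟩)) hr
    rw [← height_eq (Pool.Agent.H61GM.CL Λ hS []).2.alg,
      add_right_comm (height (Pool.Agent.H61GM.CL Λ hS []).1 Λ ty r)] at h
    exact add_cancel h
  · obtain ⟨A, R, hA, hAv, hR, h⟩ := Pool.Agent.H61GM.rank_pl
      (k := (Pool.Agent.H61GM.CL Λ hS []).1) hS hΛ (fun x => x.2) b hx V hV
    have h1 := Pool.Agent.H61GM.to_card (a := weight b V + 1) (b := 0) hA hAv hR (by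
      rw [weight_eq]
      omega)
    rw [Nat.cast_zero, add_zero] at h1
    have h2 : {y | y ∈ [x]} = ({x} : Set ℂ) := by
      ext y
      simp
    rw [h2] at h1
    rw [values_eq]
    exact h1
  · have h1 := Pool.Agent.H61GM.final_mult hS hΛ hx ty (r := r) hr
    have h2 : {y | y ∈ [x]} = ({x} : Set ℂ) := by
      ext y
      simp
    rw [h2] at h1
    exact h1

end Pool.Agent.Results.MP_4aec10_nt.GenericMultipliers
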