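import Mathlib
import Pool.Agent.H43S.Seq
import Pool.Agent.Y776.Cv.Fix

/-!
# Points of the Lie algebra of a semi-abelian variety near a given point: a bounded number of exceptions

Let `G = 𝔾_m^s × E_1 × … × E_n` be the product of a torus and of arbitrary elliptic curves, with and without complex
multiplication; curves may occur several times. Let `r_0 = (t_0, u_0)` be ANY point of `Lie G_ℂ = ℂ^s × ℂ^n` such that
`exp_G(r_0)` has finite coordinates, and `v` any vector which is not in the Lie algebra of a proper algebraic subgroup.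

(3) We show that the inequality of the problem is true in bounded degree and height for all points
`r = r_0 + v / l`, `l = M, M + 1, …, M ^ τ`, with **at most `C` exceptions `l`**, where `C` does not depend on `M`: `s + 2 n` of
the numbers `r_i`, `exp_G(r)_i`, `ζ(u_i)` (always the same), among them at least `dim G = s + n` components of `r` and
`exp_G(r)`, satisfy no relation of degree at most `d` and height at most `l ^ A` whose coefficients are combinations of
arbitrary given numbers `ξ_1, …, ξ_g`, for instance of monomials in the periods of `G` and in the components of `r_0`, of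
`v` and of `exp_G(r_0)`, even no approximate one.

This is a special case of theorems on arbitrary analytic curves `r(x)` in `Lie G`, which are not contained in a translate of
the Lie algebra of a proper algebraic subgroup. (1) Let `X_1, …, X_N` be finite sets of elements of a number field `F` of
degree at most `m`, of height at most `T`, each of them of diameter at most `T ^ (-δ)`. For `N` curves `r_j` in
`Lie G_j` all but `C ∑_j ∏_(i ≠ j) |X_i|` of the tuples `(x_1, …, x_N)` of `X_1 × … × X_N` are such that the numbers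
belonging to `r_1(x_1), …, r_N(x_N)` satisfy no relation of the kind above, and there is such a tuple if all `|X_j| > C`.
So for `N = 1` there are at most `C` exceptions in each disc of radius `T ^ (-δ) / 2`, `δ > 0` arbitrary. (2) For a
sequence `x_l` of elements of `F` of height at most `h(l)` with `|x_l - x_k| ≤ h(l) ^ (-c)` for `l ≤ k` there are at most
`C` exceptions with `h(l) ∈ [T, T ^ τ]`.

The starting results of the problem treat almost all points of a box, translates by logarithms of algebraic points in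
long windows, or all roots of almost all polynomials; here the points tend to an arbitrary given point and the number of
exceptions is bounded.

The proof uses Ax's theorem for products of tori, elliptic curves and their extensions by vector groups, relative to
countable fields of constants (`Pool.Agent.Y776.Cv.fix_sub`), and a determinant method for small discs
(`Pool.Agent.R349.Gen.shortS`).
-/

set_option autoImplicit false

open NumberField
open scoped PeriodPair

namespace Pool.Agent.Results.MP_4aec10_nt.NearEveryPoint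

/-- The Weierstrass zeta function `ζ(z) = ∑ (1/(z-l) + 1/l + z/l²)`, the sum over the lattice (the summand of
`l = 0` is `1/z`, since `1/0 = 0` in Lean). -/
noncomputable def zeta (L : PeriodPair) (z : ℂ) : ℂ :=
  ∑' l : L.lattice, (1 / (z - l) + 1 / l + z / l ^ 2)

/-- There is no homomorphism except `0` from the elliptic curve `ℂ / L` to `ℂ / L'`. -/
def NoHom (L L' : PeriodPair) : Prop := ∀ α : ℂ, (∀ w ∈ L.lattice, α * w ∈ L'.lattice) → α = 0

/-- The names of the numbers which belong to a point `r = (t, u)` of `Lie (𝔾_m^s × E_1 × … × E_n)`: the components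
`t_k`, `u_i` of `r`; the components `exp(t_k)`, `℘(u_i)` of `exp_G(r)`; the numbers `ζ(u_i)`. -/
inductive Name (s n : ℕ) : Type
  | t : Fin s → Name s n
  | exp : Fin s → Name s n
  | u : Fin n → Name s n
  | wp : Fin n → Name s n
  | zeta : Fin n → Name s n

/-- The numbers which belong to the point `r = (t, u)`; the curve `E_i` is `ℂ / L_(ty i)`. -/
noncomputable def value {s n q : ℕ} (L : Fin q → PeriodPair) (ty : Fin n → Fin q) (t : Fin s → ℂ) (u : Fin n → ℂ) :
    Name s n → ℂ
  | Name.t k => t k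
  | Name.exp k => Complex.exp (t k)
  | Name.u i => u i
  | Name.wp i => ℘[L (ty i)] (u i)
  | Name.zeta i => zeta (L (ty i)) (u i)

/-- An analytic curve `(t, u)` in the Lie algebra of `𝔾_m^s × E_1 × … × E_n`, `E_i = ℂ / L_(ty i)`, which is not
contained in a translate of the Lie algebra of a proper algebraic subgroup, and does not meet the kernels of `exp_(E_i)`. -/
structure Curve (U : Set ℂ) {s n q : ℕ} (L : Fin q → PeriodPair) (ty : Fin n → Fin q) (t : Fin s → ℂ → ℂ)
    (u : Fin n → ℂ → ℂ) : Prop where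
  isOpen : IsOpen U
  isPreconnected : IsPreconnected U
  nonempty : U.Nonempty
  pos : 0 < s + n
  noHom : ∀ c c', c ≠ c' → NoHom (L c) (L c')
  analytic_t : ∀ k, AnalyticOnNhd ℂ (t k) U
  analytic_u : ∀ i, AnalyticOnNhd ℂ (u i) U
  notMem : ∀ i, ∀ z ∈ U, u i z ∉ (L (ty i)).lattice
  /-- no nontrivial integral combination of the `t_k` is constant -/
  independent_t : ∀ (m : Fin s → ℤ) (b : ℂ), (∀ z ∈ U, ∑ k, (m k : ℂ) * t k z = b) → m = 0
  /-- no nontrivial combination of the `u_i` which belong to the same lattice `L_c`, with coefficients in the ring of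
  endomorphisms of `ℂ / L_c`, is constant -/
  independent_u : ∀ (c : Fin q) (a : Fin n → ℂ) (b : ℂ), (∀ i, ∀ w ∈ (L c).lattice, a i * w ∈ (L c).lattice) →
    (∀ i, ty i ≠ c → a i = 0) → (∀ z ∈ U, ∑ i, a i * u i z = b) → a = 0

/-- The vector `(v, w)` is not in the Lie algebra of a proper algebraic subgroup of `𝔾_m^s × E_1 × … × E_n`. -/
structure Direction {s n q : ℕ} (L : Fin q → PeriodPair) (ty : Fin n → Fin q) (v : Fin s → ℂ) (w : Fin n → ℂ) :
    Prop where
  noHom : ∀ c c', c ≠ c' → NoHom (L c) (L c')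
  independent_v : ∀ m : Fin s → ℤ, ∑ k, (m k : ℂ) * v k = 0 → m = 0
  independent_w : ∀ (c : Fin q) (a : Fin n → ℂ), (∀ i, ∀ x ∈ (L c).lattice, a i * x ∈ (L c).lattice) →
    (∀ i, ty i ≠ c → a i = 0) → ∑ i, a i * w i = 0 → a = 0

/-- The polynomials of degree at most `d` in each variable, all of whose coefficients are of the form `∑ ξ_i ι(c_i)`, where
the `c_i` are integers of the number field `F` all of whose conjugates have absolute value at most `H`. -/
def Admissible {σ : Type} {g : ℕ} (F : Type) [Field F] [NumberField F] (ι : F →+* ℂ) (ξ : Fin g → ℂ) (d : ℕ) (H : ℝ)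
    (P : MvPolynomial σ ℂ) : Prop :=
  (∀ y, P.degreeOf y ≤ d) ∧
    ∀ s, ∃ c : Fin g → 𝓞 F, (∀ i (φ : F →+* ℂ), ‖φ (c i)‖ ≤ H) ∧ P.coeff s = ∑ i, ξ i * ι (c i)

/-- The complex numbers `v` are good: every admissible polynomial takes at them a value which is at least `δ` times each of
its coefficients, and `π` and these numbers satisfy no relation `Q = 0` with a nonzero polynomial `Q` of degree at most `d`
in each variable whose coefficients are integers of `F` with conjugates of absolute value at most `H`. -/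
def Good {σ : Type} {g : ℕ} (F : Type) [Field F] [NumberField F] (ι : F →+* ℂ) (ξ : Fin g → ℂ) (d : ℕ)
    (H δ : ℝ) (v : σ → ℂ) : Prop :=
  (∀ P : MvPolynomial σ ℂ, Admissible F ι ξ d H P → ∀ s, δ * ‖P.coeff s‖ ≤ ‖MvPolynomial.aeval v P‖) ∧
  ∀ Q : MvPolynomial (Option σ) (𝓞 F), Q ≠ 0 → (∀ x, Q.degreeOf x ≤ d) →
    (∀ s (φ : F →+* ℂ), ‖φ ((Q.coeff s : 𝓞 F) : F)‖ ≤ H) →
    MvPolynomial.eval₂ (ι.comp (algebraMap (𝓞 F) F)) (fun o => o.elim (Real.pi : ℂ) v) Q ≠ 0

/-- The element `x` of `F` is a quotient of integers all of whose conjugates have absolute value at most `T`. -/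
def HeightLe (F : Type) [Field F] [NumberField F] (T : ℝ) (x : F) : Prop :=
  ∃ a b : 𝓞 F, b ≠ 0 ∧ (∀ φ : F →+* ℂ, ‖φ a‖ ≤ T ∧ ‖φ b‖ ≤ T) ∧ x = a / b

/-- `s + 2 n` different names, at least `s + n` of which are components of `r` or of `exp_G(r)` -/
def Selection {s n : ℕ} (e : Fin (s + 2 * n) → Name s n) : Prop :=
  Function.Injective e ∧ s + n ≤ {k | ∀ i, e k ≠ Name.zeta i}.ncard

theorem selection_of {s n : ℕ} {e : Fin (s + 2 * n) → Name s n} (he : Function.Injective e) : Selection e := by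
  classical
  refine ⟨he, ?_⟩
  have h1 : {k | ∀ i, e k ≠ Name.zeta i} = {k | ∃ i, e k = Name.zeta i}ᶜ := by
    ext k
    simp
  have h2 : {k | ∃ i, e k = Name.zeta i}.ncard ≤ n := by
    have h3 : (e '' {k | ∃ i, e k = Name.zeta i}).ncard = {k | ∃ i, e k = Name.zeta i}.ncard :=
      Set.ncard_image_of_injective _ he
    rw [← h3]
    have h4 : e '' {k | ∃ i, e k = Name.zeta i} ⊆ Set.range (Name.zeta : Fin n → Name s n) := by
      rintro _ ⟨k, ⟨i, hi⟩, rfl⟩
      exact ⟨i, hi.symm⟩
    refine (Set.ncard_le_ncard h4 (Set.finite_range _)).trans ?_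
    rw [← Set.image_univ]
    refine (Set.ncard_image_le Set.finite_univ).trans ?_
    rw [Set.ncard_univ, Nat.card_fin]
  have h5 := Set.ncard_add_ncard_compl {k | ∃ i, e k = Name.zeta i}
  rw [Nat.card_fin] at h5
  rw [h1]
  omega

/-- the names of `Pool.Agent.Y776.Cv` -/
def nm {s n : ℕ} : Pool.Agent.Y776.Cv.Nf n s → Name s n :=
  Sum.elim Name.t (Sum.elim Name.exp (Sum.elim Name.u (Sum.elim Name.zeta Name.wp)))

theorem nm_inj {s n : ℕ} : Function.Injective (nm : Pool.Agent.Y776.Cv.Nf n s → Name s n) := by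
  let g : Name s n → Pool.Agent.Y776.Cv.Nf n s := fun a => match a with
    | Name.t k => Sum.inl k
    | Name.exp k => Sum.inr (Sum.inl k)
    | Name.u i => Sum.inr (Sum.inr (Sum.inl i))
    | Name.zeta i => Sum.inr (Sum.inr (Sum.inr (Sum.inl i)))
    | Name.wp i => Sum.inr (Sum.inr (Sum.inr (Sum.inr i)))
  have hg : Function.LeftInverse g nm := by
    rintro (a | a | a | a | a) <;> rfl
  exact hg.injective

theorem nm_val {s n q : ℕ} (L : Fin q → PeriodPair) (ty : Fin n → Fin q) (t : Fin s → ℂ → ℂ) (u : Fin n → ℂ → ℂ)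
    (z : ℂ) (i : Pool.Agent.Y776.Cv.Nf n s) :
    value L ty (fun k => t k z) (fun i => u i z) (nm i) = Pool.Agent.Y776.Cv.yf L ty u t i z := by
  rcases i with a | a | a | a | a <;> rfl

theorem fxm {U : Set ℂ} {s n q : ℕ} {L : Fin q → PeriodPair} {ty : Fin n → Fin q} {t : Fin s → ℂ → ℂ}
    {u : Fin n → ℂ → ℂ} (h : Curve U L ty t u) : Pool.Agent.Y776.Cv.FxM U L ty u t where
  isOpen := h.isOpen
  conn := h.isPreconnected
  ni := h.noHom
  ua := h.analytic_u
  un := h.notMem
  ui := h.independent_u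
  la := h.analytic_t
  li := h.independent_t

/-- the independent functions -/
theorem exists_sel {U : Set ℂ} {s n q : ℕ} {L : Fin q → PeriodPair} {ty : Fin n → Fin q} {t : Fin s → ℂ → ℂ}
    {u : Fin n → ℂ → ℂ} (h : Curve U L ty t u) : ∃ e : Fin (s + 2 * n) → Name s n, Selection e ∧
      (∀ k, AnalyticOnNhd ℂ (fun z => value L ty (fun k => t k z) (fun i => u i z) (e k)) U) ∧
      ∀ x ∈ U, Pool.Agent.Y124.LocInd (fun k z => value L ty (fun k => t k z) (fun i => u i z) (e k)) x := by
  obtain ⟨e, he, hL⟩ := Pool.Agent.Y776.Cv.fix_sub (fxm h) h.pos h.nonempty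
  have hfun : ∀ k, (fun z => value L ty (fun k => t k z) (fun i => u i z) (nm (e k))) =
      Pool.Agent.Y776.Cv.yf L ty u t (e k) := fun k => funext fun z => nm_val L ty t u z _
  refine ⟨fun k => nm (e k), selection_of (nm_inj.comp he), fun k => ?_, fun x hx => ?_⟩
  · rw [hfun k]
    exact Pool.Agent.Y776.Cv.yf_an (fxm h) _
  · have h1 : (fun (k : Fin (s + 2 * n)) z => value L ty (fun k => t k z) (fun i => u i z) (nm (e k))) = fun k =>
        Pool.Agent.Y776.Cv.yf L ty u t (e k) := funext fun k => hfun k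
    rw [h1]
    exact hL x hx

/-- a line in the direction of a vector as above -/
theorem line {s n q : ℕ} (L : Fin q → PeriodPair) (ty : Fin n → Fin q) (hsn : 0 < s + n) (t₀ v : Fin s → ℂ)
    (u₀ w : Fin n → ℂ) (hu : ∀ i, u₀ i ∉ (L (ty i)).lattice) (h : Direction L ty v w) :
    (0 : ℂ) ∈ {z : ℂ | ∀ i, u₀ i + w i * z ∉ (L (ty i)).lattice} ∧
      Curve {z : ℂ | ∀ i, u₀ i + w i * z ∉ (L (ty i)).lattice} L ty (fun k z => t₀ k + v k * z)
        (fun i z => u₀ i + w i * z) := by
  classical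
  have h0 : (0 : ℂ) ∈ {z : ℂ | ∀ i, u₀ i + w i * z ∉ (L (ty i)).lattice} := by
    intro i
    rw [mul_zero, add_zero]
    exact hu i
  have hw : ∀ i, w i ≠ 0 := by
    intro i hi
    have h1 := h.independent_w (ty i) (Pi.single i 1) (fun j x hx => by
      rcases eq_or_ne j i with rfl | hj
      · rw [Pi.single_eq_same, one_mul]
        exact hx
      · rw [Pi.single_eq_of_ne hj, zero_mul]
        exact Submodule.zero_mem _) (fun j hj => by
      rcases eq_or_ne j i with rfl | hj'
      · exact absurd rfl hj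
      · exact Pi.single_eq_of_ne hj' _) (by
      rw [Finset.sum_eq_single i (fun j _ hj => by rw [Pi.single_eq_of_ne hj, zero_mul])
        (fun hi => absurd (Finset.mem_univ i) hi), hi, mul_zero])
    have h2 := congrFun h1 i
    rw [Pi.single_eq_same] at h2
    exact one_ne_zero h2
  have hcompl : {z : ℂ | ∀ i, u₀ i + w i * z ∉ (L (ty i)).lattice} =
      (⋃ i, (fun x : ℂ => (x - u₀ i) / w i) '' ((L (ty i)).lattice : Set ℂ))ᶜ := by
    ext z
    simp only [Set.mem_ofPred_eq, Set.mem_compl_iff, Set.mem_iUnion, not_exists, Set.mem_image, not_and]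
    constructor
    · rintro hz i x hx rfl
      refine hz i ?_
      rw [mul_div_cancel₀ _ (hw i)]
      simpa using hx
    · intro hz i hx
      refine hz i _ hx ?_
      rw [add_sub_cancel_left, mul_div_cancel_left₀ _ (hw i)]
  have hopen : IsOpen {z : ℂ | ∀ i, u₀ i + w i * z ∉ (L (ty i)).lattice} := by
    have h1 : {z : ℂ | ∀ i, u₀ i + w i * z ∉ (L (ty i)).lattice} =
        ⋂ i, (fun z : ℂ => u₀ i + w i * z) ⁻¹' (((L (ty i)).lattice : Set ℂ)ᶜ) := by
      ext z
      simp
    rw [h1]
    refine isOpen_iInter_of_finite fun i => ?_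
    exact (L (ty i)).isClosed_lattice.isOpen_compl.preimage (by fun_prop)
  refine ⟨h0, ⟨hopen, ?_, ⟨0, h0⟩, hsn, h.noHom, ?_, ?_, fun i z hz => hz i, ?_, ?_⟩⟩
  · rw [hcompl]
    refine (Set.Countable.isConnected_compl_of_one_lt_rank (by simp) ?_).2
    refine Set.countable_iUnion fun i => Set.Countable.image ?_ _
    have : Countable (L (ty i)).lattice := inferInstance
    exact Set.countable_coe_iff.1 this
  · intro k
    exact fun z _ => analyticAt_const.add (analyticAt_const.mul analyticAt_id)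
  · intro i
    exact fun z _ => analyticAt_const.add (analyticAt_const.mul analyticAt_id)
  · intro m b hm
    obtain ⟨ρ, hρ, hball⟩ := Metric.isOpen_iff.1 hopen 0 h0
    have h1 := hm 0 h0
    have h2 := hm ((ρ / 2 : ℝ) : ℂ) (hball (by
      rw [mem_ball_zero_iff, Complex.norm_real, Real.norm_eq_abs, abs_of_pos (by linarith)]
      linarith))
    apply h.independent_v m
    have h3 : ∑ k, (m k : ℂ) * (t₀ k + v k * ((ρ / 2 : ℝ) : ℂ)) - ∑ k, (m k : ℂ) * (t₀ k + v k * 0) =
        ((ρ / 2 : ℝ) : ℂ) * ∑ k, (m k : ℂ) * v k := by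
      rw [← Finset.sum_sub_distrib, Finset.mul_sum]
      exact Finset.sum_congr rfl fun k _ => by ring
    rw [h1, h2, sub_self] at h3
    have h4 : ((ρ / 2 : ℝ) : ℂ) ≠ 0 := by
      rw [Complex.ofReal_ne_zero]
      linarith
    exact (mul_eq_zero.1 h3.symm).resolve_left h4
  · intro c a b ha hty hm
    obtain ⟨ρ, hρ, hball⟩ := Metric.isOpen_iff.1 hopen 0 h0
    have h1 := hm 0 h0
    have h2 := hm ((ρ / 2 : ℝ) : ℂ) (hball (by
      rw [mem_ball_zero_iff, Complex.norm_real, Real.norm_eq_abs, abs_of_pos (by linarith)]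
      linarith))
    apply h.independent_w c a ha hty
    have h3 : ∑ i, a i * (u₀ i + w i * ((ρ / 2 : ℝ) : ℂ)) - ∑ i, a i * (u₀ i + w i * 0) =
        ((ρ / 2 : ℝ) : ℂ) * ∑ i, a i * w i := by
      rw [← Finset.sum_sub_distrib, Finset.mul_sum]
      exact Finset.sum_congr rfl fun k _ => by ring
    rw [h1, h2, sub_self] at h3
    have h4 : ((ρ / 2 : ℝ) : ℂ) ≠ 0 := by
      rw [Complex.ofReal_ne_zero]
      linarith
    exact (mul_eq_zero.1 h3.symm).resolve_left h4

/-- **Main theorem.** (1) Tuples of points of curves in small discs; (2) sequences of points of a curve; (3) the points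
`r₀ + v / l`. -/
theorem result :
    (∀ (N : ℕ) (s n q : Fin N → ℕ) (U : Fin N → Set ℂ) (L : ∀ j, Fin (q j) → PeriodPair)
      (ty : ∀ j, Fin (n j) → Fin (q j)) (t : ∀ j, Fin (s j) → ℂ → ℂ) (u : ∀ j, Fin (n j) → ℂ → ℂ),
      (∀ j, Curve (U j) (L j) (ty j) (t j) (u j)) →
      ∃ e : ∀ j, Fin (s j + 2 * n j) → Name (s j) (n j), (∀ j, Selection (e j)) ∧
        ∀ K : Fin N → Set ℂ, (∀ j, IsCompact (K j)) → (∀ j, K j ⊆ U j) → ∀ (m g d : ℕ) (A δ : ℝ), 0 < δ →
        ∃ (B : ℝ) (C : ℕ) (T₀ : ℝ), ∀ (F : Type) [Field F] [NumberField F], Module.finrank ℚ F ≤ m →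
          ∀ (ι : F →+* ℂ) (ξ : Fin g → ℂ) (T : ℝ), T₀ ≤ T → ∀ X : Fin N → Finset F,
            (∀ j, ∀ x ∈ X j, ι x ∈ K j ∧ HeightLe F T x) → (∀ j, ∀ x ∈ X j, ∀ y ∈ X j, ‖ι x - ι y‖ ≤ T ^ (-δ)) →
            (({x : Fin N → F | (∀ j, x j ∈ X j) ∧ ¬ Good F ι ξ d (T ^ A) (T ^ (-B))
              (fun a : Σ j, Fin (s j + 2 * n j) => value (L a.1) (ty a.1) (fun k => t a.1 k (ι (x a.1)))
                (fun i => u a.1 i (ι (x a.1))) (e a.1 a.2))}.ncard : ℝ) ≤
              C * ∑ j, ∏ i ∈ Finset.univ.erase j, ((X i).card : ℝ)) ∧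
            ((∀ j, C < (X j).card) → ∃ x : Fin N → F, (∀ j, x j ∈ X j) ∧ Good F ι ξ d (T ^ A) (T ^ (-B))
              (fun a : Σ j, Fin (s j + 2 * n j) => value (L a.1) (ty a.1) (fun k => t a.1 k (ι (x a.1)))
                (fun i => u a.1 i (ι (x a.1))) (e a.1 a.2)))) ∧
    (∀ (s n q : ℕ) (U : Set ℂ) (L : Fin q → PeriodPair) (ty : Fin n → Fin q) (t : Fin s → ℂ → ℂ)
      (u : Fin n → ℂ → ℂ), Curve U L ty t u →
      ∃ e : Fin (s + 2 * n) → Name s n, Selection e ∧
        ∀ K : Set ℂ, IsCompact K → K ⊆ U → ∀ (m g d : ℕ) (A c τ : ℝ), 0 ≤ A → 0 < c → 1 ≤ τ →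
        ∃ (B : ℝ) (C : ℕ) (T₀ : ℝ), ∀ (F : Type) [Field F] [NumberField F], Module.finrank ℚ F ≤ m →
          ∀ (ι : F →+* ℂ) (ξ : Fin g → ℂ) (h : ℕ → ℝ) (x : ℕ → F), (∀ l, ι (x l) ∈ K) → (∀ l, HeightLe F (h l) (x l)) →
            (∀ l k, l ≤ k → ‖ι (x l) - ι (x k)‖ ≤ h l ^ (-c)) → ∀ T, T₀ ≤ T → ∀ S : Finset F,
            (∀ y ∈ S, ∃ l, y = x l ∧ T ≤ h l ∧ h l ≤ T ^ τ ∧ ¬ Good F ι ξ d (h l ^ A) (h l ^ (-B))
              (fun a => value L ty (fun k => t k (ι (x l))) (fun i => u i (ι (x l))) (e a))) → S.card ≤ C) ∧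
    (∀ (s n q : ℕ) (L : Fin q → PeriodPair) (ty : Fin n → Fin q), 0 < s + n → ∀ (t₀ v : Fin s → ℂ)
      (u₀ w : Fin n → ℂ), (∀ i, u₀ i ∉ (L (ty i)).lattice) → Direction L ty v w →
      ∃ e : Fin (s + 2 * n) → Name s n, Selection e ∧
        ∀ (m g d τ : ℕ) (A : ℝ), 0 ≤ A →
        ∃ (B : ℝ) (C : ℕ), ∀ (F : Type) [Field F] [NumberField F], Module.finrank ℚ F ≤ m →
          ∀ (ι : F →+* ℂ) (ξ : Fin g → ℂ) (M : ℕ), {l : ℕ | M ≤ l ∧ l ≤ M ^ τ ∧
            ¬ Good F ι ξ d ((l : ℝ) ^ A) ((l : ℝ) ^ (-B))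
              (fun a => value L ty (fun k => t₀ k + v k / l) (fun i => u₀ i + w i / l) (e a))}.ncard ≤ C) := by
  refine ⟨?_, ?_, ?_⟩
  · intro N s n q U L ty t u hU
    choose e he han hL using fun j => exists_sel (hU j)
    refine ⟨e, he, fun K hK hKU m g d A δ hδ => ?_⟩
    exact Pool.Agent.R349.Gen.shortS m N g d (κ := fun j => Fin (s j + 2 * n j)) (fun j => (hU j).isOpen)
      (fun j => (hU j).isPreconnected)
      (fun j k z => value (L j) (ty j) (fun k => t j k z) (fun i => u j i z) (e j k)) han hL K hK hKU A δ hδ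
  · intro s n q U L ty t u hU
    obtain ⟨e, he, han, hL⟩ := exists_sel hU
    refine ⟨e, he, fun K hK hKU m g d A c τ hA hc hτ => ?_⟩
    obtain ⟨B, C, T₀, -, h⟩ := Pool.Agent.H43S.seqG hU.isOpen hU.isPreconnected
      (fun k z => value L ty (fun k => t k z) (fun i => u i z) (e k)) han hL m g d K hK hKU A c τ hA hc hτ
    exact ⟨B, C, T₀, h⟩
  · intro s n q L ty hsn t₀ v u₀ w hu h
    obtain ⟨h0, hC⟩ := line L ty hsn t₀ v u₀ w hu h
    obtain ⟨e, he, han, hL⟩ := exists_sel hC
    refine ⟨e, he, fun m g d τ A hA => ?_⟩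
    obtain ⟨B, C, h1⟩ := Pool.Agent.H43S.nearG hC.isOpen hC.isPreconnected
      (fun k z => value L ty (fun k => t₀ k + v k * z) (fun i => u₀ i + w i * z) (e k)) han hL h0 m g d τ A hA
    refine ⟨B, C, fun F _ _ hF ι ξ M => ?_⟩
    have h2 := h1 F hF ι ξ M
    simp only [mul_one_div] at h2
    exact h2

end Pool.Agent.Results.MP_4aec10_nt.NearEveryPoint
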